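import Pool.Agent.Run7.h445.QC.Cubic
import Pool.Agent.N17.HC.QUA
import Pool.Agent.N17.HC.FIN
import Pool.Agent.N17.CK.Stm

set_option autoImplicit false

open Finset Polynomial

namespace Pool.Agent.Run7.h445.QF

open Pool.Agent.N17.HC Pool.Agent.N17.HC.FIN Pool.Agent.N17.CK Pool.Agent.Run7.h445.QC

/-- few points on the conic -/
theorem conic_card (m f : ℤ) (hf : Squarefree f) (hf3 : f ≠ -3) (B : ℕ) (T : Finset ℤ)
    (hT : ∀ x ∈ T, ∃ s : ℤ, x ^ 2 - (-27 * f) * s ^ 2 = 4 * m ^ 3 ∧ |x| ≤ (B : ℤ) ∧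
      |s| ≤ (B : ℤ)) :
    T.card ≤ 1 + (4 * m ^ 3).natAbs.divisors.card * ((4 * m ^ 3).natAbs.divisors.card *
      (419904 * (Nat.log 2 (18 * (1 + (-27 * f).natAbs) * B ^ 2) + 1))) := by
  classical
  choose! s hs1 hs2 hs3 using hT
  have hf0 := hf.ne_zero
  by_cases hn : 4 * m ^ 3 = 0
  · have h1 : T.card ≤ 1 := by
      rw [card_le_one]
      intro c hc c' hc'
      have e1 := hs1 c hc
      have e2 := hs1 c' hc'
      rw [hn] at e1 e2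
      have z1 := ne_neg_three f (s c) c hf hf3 (by linarith)
      have z2 := ne_neg_three f (s c') c' hf hf3 (by linarith)
      rw [z1, z2]
    omega
  · set κ : ℤ → ℤ × ℤ := fun c => (c, s c) with hκ
    have hinj : Set.InjOn κ (T : Set ℤ) := by
      intro c _ c' _ h
      simp only [hκ, Prod.mk.injEq] at h
      exact h.1
    have h1 := all_card (4 * m ^ 3) (-27 * f) hn (by omega) (by omega)
      (hdiv f hf) B (T.image κ) (by
        intro v hv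
        obtain ⟨c, hc, rfl⟩ := mem_image.1 hv
        exact ⟨hs1 c hc, hs2 c hc, hs3 c hc⟩)
    rw [card_image_of_injOn hinj] at h1
    omega

/-- the coefficients -/
noncomputable def qa (P : ℤ[X]) : ℤ := -P.coeff 3
noncomputable def qb (P : ℤ[X]) : ℤ := P.coeff 2
noncomputable def qc (P : ℤ[X]) : ℤ := -P.coeff 1
noncomputable def qd (P : ℤ[X]) : ℤ := P.coeff 0

/-- the coefficients of the cubic resolvent -/
noncomputable def qv (P : ℤ[X]) : ℤ := qa P * qc P - 4 * qd P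
noncomputable def qw (P : ℤ[X]) : ℤ := qc P ^ 2 + qa P ^ 2 * qd P - 4 * qb P * qd P

/-- the discriminant -/
noncomputable def qD (P : ℤ[X]) : ℤ := disc3 (qb P) (qv P) (qw P)

/-- the two invariants -/
noncomputable def qm (P : ℤ[X]) : ℤ := qb P ^ 2 - 3 * qv P
noncomputable def qX (P : ℤ[X]) : ℤ := 2 * qb P ^ 3 - 9 * qb P * qv P + 27 * qw P

theorem identity (P : ℤ[X]) : qX P ^ 2 + 27 * qD P = 4 * qm P ^ 3 := by
  unfold qX qD qm Pool.Agent.N17.HC.disc3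
  ring

/-- the conditions on the polynomial -/
def Good (N : ℕ) (P : ℤ[X]) : Prop :=
  P.Monic ∧ P.natDegree = 4 ∧ (∀ i ≤ 4, 0 ≤ chern 4 P i) ∧
    (∀ i < 4, chern 4 P (i + 1) ≤ chern 4 P 1 * chern 4 P i) ∧
    (∀ t : ℤ, ∃ z : ℤ, kos N (rootsOf P) (N + t) = z) ∧
    (∀ t : ℤ, ∃ z : ℤ, ((rootsOf P).map fun b => kos N (rootsOf P) (N + t - b)).sum = z)

theorem sizes (N : ℕ) (P : ℤ[X]) (h : Good N P) :
    P = P4 (qa P) (qb P) (qc P) (qd P) ∧ 4 ≤ qa P ∧ 0 ≤ qb P ∧ qb P ≤ qa P ^ 2 ∧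
    0 ≤ qc P ∧ qc P ≤ qa P ^ 3 ∧ 1 ≤ qd P ∧ qd P ≤ qa P ^ 4 := by
  obtain ⟨hP, hrP, hpos, hsch, -, -⟩ := h
  have hP4 : P = P4 (qa P) (qb P) (qc P) (qd P) := form4 P hP hrP
  set a := qa P
  set b := qb P
  set c := qc P
  set d := qd P
  have p1 := hpos 1 (by norm_num)
  have p2 := hpos 2 (by norm_num)
  have p3 := hpos 3 (by norm_num)
  have p4 := hpos 4 (by norm_num)
  have s1 := hsch 1 (by norm_num)
  have s2 := hsch 2 (by norm_num)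
  have s3 := hsch 3 (by norm_num)
  obtain ⟨e0, e1, e2, e3⟩ := coeff4 (a - 4) (b - 3 * a + 6) (c - 2 * b + 3 * a - 4)
    (d - c + b - a + 1)
  have k1 : chern 4 P 1 = a - 4 := by
    unfold chern
    rw [hP4, comp4]
    norm_num [e3]
  have k2 : chern 4 P 2 = b - 3 * a + 6 := by
    unfold chern
    rw [hP4, comp4]
    norm_num [e2]
  have k3 : chern 4 P 3 = c - 2 * b + 3 * a - 4 := by
    unfold chern
    rw [hP4, comp4]
    norm_num [e1]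
  have k4 : chern 4 P 4 = d - c + b - a + 1 := by
    unfold chern
    rw [hP4, comp4]
    norm_num [e0]
  norm_num at s1 s2 s3
  rw [k1] at p1
  rw [k2] at p2
  rw [k3] at p3
  rw [k4] at p4
  rw [k1, k2] at s1
  rw [k1, k2, k3] at s2
  rw [k1, k3, k4] at s3
  obtain ⟨e, he⟩ : ∃ e : ℤ, e = a - 4 := ⟨_, rfl⟩
  obtain ⟨u, hu⟩ : ∃ u : ℤ, u = b - 3 * a + 6 := ⟨_, rfl⟩
  obtain ⟨v, hv⟩ : ∃ v : ℤ, v = c - 2 * b + 3 * a - 4 := ⟨_, rfl⟩
  obtain ⟨w, hw⟩ : ∃ w : ℤ, w = d - c + b - a + 1 := ⟨_, rfl⟩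
  rw [← he] at p1 s1 s2 s3
  rw [← hu] at p2 s1 s2
  rw [← hv] at p3 s2 s3
  rw [← hw] at p4 s3
  have ha : a = e + 4 := by linarith
  have hb : b = u + 3 * e + 6 := by linarith
  have hc : c = v + 2 * u + 3 * e + 4 := by linarith
  have hd : d = w + v + u + e + 1 := by linarith
  have u1 : u ≤ e ^ 2 := by nlinarith
  have v1 : v ≤ e ^ 3 := by nlinarith
  have w1 : w ≤ e ^ 4 := by
    have h1 : e * v ≤ e * e ^ 3 := mul_le_mul_of_nonneg_left v1 p1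
    have h2 : e * e ^ 3 = e ^ 4 := by ring
    linarith
  have f2 : 0 ≤ e ^ 2 := by positivity
  have f3 : 0 ≤ e ^ 3 := by positivity
  refine ⟨hP4, by linarith, by linarith, ?_, by linarith, ?_, by linarith, ?_⟩
  · rw [hb, ha]
    have : (e + 4) ^ 2 = e ^ 2 + 8 * e + 16 := by ring
    linarith
  · rw [hc, ha]
    have : (e + 4) ^ 3 = e ^ 3 + 12 * e ^ 2 + 48 * e + 64 := by ring
    linarith
  · rw [hd, ha]
    have : (e + 4) ^ 4 = e ^ 4 + 16 * e ^ 3 + 96 * e ^ 2 + 256 * e + 256 := by ring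
    linarith

/-- real bounds -/
theorem bounds (N : ℕ) (P : ℤ[X]) (h : Good N P) (H : ℝ) (hH : (qa P : ℝ) ≤ H) :
    |(qD P : ℝ)| ≤ 3000 * H ^ 12 ∧ |(qX P : ℝ)| ≤ 3000 * H ^ 12 ∧ |(qm P : ℝ)| ≤ 13 * H ^ 4 ∧
    |(qd P : ℝ)| ≤ 3000 * H ^ 12 := by
  obtain ⟨-, h1, h2, h3, h4, h5, h6, h7⟩ := sizes N P h
  have ha4 : (4 : ℝ) ≤ qa P := by exact_mod_cast h1
  have ha0 : (0 : ℝ) ≤ qa P := by linarith
  have hb0 : (0 : ℝ) ≤ qb P := by exact_mod_cast h2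
  have hc0 : (0 : ℝ) ≤ qc P := by exact_mod_cast h4
  have hd0 : (1 : ℝ) ≤ qd P := by exact_mod_cast h6
  have hb : (qb P : ℝ) ≤ (qa P : ℝ) ^ 2 := by exact_mod_cast h3
  have hc : (qc P : ℝ) ≤ (qa P : ℝ) ^ 3 := by exact_mod_cast h5
  have hd : (qd P : ℝ) ≤ (qa P : ℝ) ^ 4 := by exact_mod_cast h7
  have hH4 : 4 ≤ H := by linarith
  have hH0 : 0 ≤ H := by linarith
  have hH1 : 1 ≤ H := by linarith
  have hb' : (qb P : ℝ) ≤ H ^ 2 := hb.trans (pow_le_pow_left₀ ha0 hH 2)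
  have hc' : (qc P : ℝ) ≤ H ^ 3 := hc.trans (pow_le_pow_left₀ ha0 hH 3)
  have hd' : (qd P : ℝ) ≤ H ^ 4 := hd.trans (pow_le_pow_left₀ ha0 hH 4)
  have hv : |(qv P : ℝ)| ≤ 4 * H ^ 4 := by
    unfold qv
    push_cast
    have k1 : (qa P : ℝ) * qc P ≤ H * H ^ 3 := mul_le_mul hH hc' hc0 hH0
    have k2 : 0 ≤ (qa P : ℝ) * qc P := by positivity
    have k3 : H * H ^ 3 = H ^ 4 := by ring
    rw [abs_le]
    constructor <;> nlinarith
  have hw : |(qw P : ℝ)| ≤ 4 * H ^ 6 := by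
    unfold qw
    push_cast
    have k1 : (qc P : ℝ) ^ 2 ≤ (H ^ 3) ^ 2 := pow_le_pow_left₀ hc0 hc' 2
    have k2 : (qa P : ℝ) ^ 2 * qd P ≤ H ^ 2 * H ^ 4 :=
      mul_le_mul (pow_le_pow_left₀ ha0 hH 2) hd' (by linarith) (by positivity)
    have k3 : (qb P : ℝ) * qd P ≤ H ^ 2 * H ^ 4 := mul_le_mul hb' hd' (by linarith) (by positivity)
    have k4 : (H ^ 3) ^ 2 = H ^ 6 := by ring
    have k5 : H ^ 2 * H ^ 4 = H ^ 6 := by ring
    have k6 : 0 ≤ (qc P : ℝ) ^ 2 := by positivity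
    have k7 : 0 ≤ (qa P : ℝ) ^ 2 * qd P := by positivity
    have k8 : 0 ≤ (qb P : ℝ) * qd P := by positivity
    rw [abs_le]
    constructor <;> nlinarith
  have hu : |(qb P : ℝ)| ≤ H ^ 2 := by rwa [abs_of_nonneg hb0]
  have hM1 : 1 ≤ H ^ 2 := one_le_pow₀ hH1
  have hp4 : (H ^ 2) ^ 2 = H ^ 4 := by ring
  have hp6 : (H ^ 2) ^ 3 = H ^ 6 := by ring
  have hp12 : (H ^ 2) ^ 6 = H ^ 12 := by ring
  have q4 : 0 ≤ H ^ 4 := by positivity
  have q6 : 0 ≤ H ^ 6 := by positivity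
  have q612 : H ^ 6 ≤ H ^ 12 := pow_le_pow_right₀ hH1 (by norm_num)
  have q412 : H ^ 4 ≤ H ^ 12 := pow_le_pow_right₀ hH1 (by norm_num)
  refine ⟨?_, ?_, ?_, ?_⟩
  · have := QUA.disc_bound hM1 hu (by rw [hp4]; linarith : |(qv P : ℝ)| ≤ 5 * (H ^ 2) ^ 2)
      (by rw [hp6]; linarith : |(qw P : ℝ)| ≤ 6 * (H ^ 2) ^ 3)
    rw [hp12] at this
    unfold qD Pool.Agent.N17.HC.disc3
    push_cast
    exact this
  · unfold qX
    push_cast
    have k1 : |(qb P : ℝ)| ^ 3 ≤ (H ^ 2) ^ 3 := pow_le_pow_left₀ (abs_nonneg _) hu 3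
    have k2 : |(qb P : ℝ)| * |(qv P : ℝ)| ≤ H ^ 2 * (4 * H ^ 4) :=
      mul_le_mul hu hv (abs_nonneg _) (by positivity)
    calc |2 * (qb P : ℝ) ^ 3 - 9 * qb P * qv P + 27 * (qw P : ℝ)|
        ≤ |2 * (qb P : ℝ) ^ 3 - 9 * qb P * qv P| + |27 * (qw P : ℝ)| := abs_add_le _ _
      _ ≤ |2 * (qb P : ℝ) ^ 3| + |9 * (qb P : ℝ) * qv P| + |27 * (qw P : ℝ)| := by
          gcongr
          exact abs_sub _ _
      _ = 2 * |(qb P : ℝ)| ^ 3 + 9 * (|(qb P : ℝ)| * |(qv P : ℝ)|) + 27 * |(qw P : ℝ)| := by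
          rw [abs_mul, abs_mul, abs_mul, abs_mul, abs_pow]
          norm_num
          ring
      _ ≤ 2 * (H ^ 2) ^ 3 + 9 * (H ^ 2 * (4 * H ^ 4)) + 27 * (4 * H ^ 6) := by gcongr
      _ = 146 * H ^ 6 := by ring
      _ ≤ 3000 * H ^ 12 := by linarith
  · unfold qm
    push_cast
    have k1 : |(qb P : ℝ)| ^ 2 ≤ (H ^ 2) ^ 2 := pow_le_pow_left₀ (abs_nonneg _) hu 2
    calc |(qb P : ℝ) ^ 2 - 3 * (qv P : ℝ)| ≤ |(qb P : ℝ) ^ 2| + |3 * (qv P : ℝ)| := abs_sub _ _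
      _ = |(qb P : ℝ)| ^ 2 + 3 * |(qv P : ℝ)| := by
          rw [abs_pow, abs_mul]
          norm_num
      _ ≤ (H ^ 2) ^ 2 + 3 * (4 * H ^ 4) := by gcongr
      _ = 13 * H ^ 4 := by ring
  · rw [abs_of_nonneg (by linarith)]
    linarith

theorem loc4 (hK : S_KOS) (hL : S_LSP) (hA : S_ALG) (N : ℕ) (P : ℤ[X]) (h : Good N P)
    (p : ℕ) (hp : p.Prime) (h3 : 4 < p) (hpN : p + 8 ≤ N + 1) (hpd : ¬ (p : ℤ) ∣ qd P) :
    ∃ t : ℤ, (p : ℤ) ∣ qD P - t ^ 2 := by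
  have hs := (sizes N P h).1
  obtain ⟨hP, hrP, hpos, hsch, h1, h2⟩ := h
  obtain ⟨x, hx⟩ := loc hK hL N 4 P hP hrP (qd P) (by unfold qd; ring) h1 h2 p hp h3
    (by omega) hpd
  have : NeZero p := ⟨hp.ne_zero⟩
  have h4 : Spl4 p (qa P) (qb P) (qc P) (qd P) := spl4 _ _ _ _ p x (by rw [← hs]; exact hx)
  exact hA.1 p _ _ _ (QUA.spl3_of_spl4 h4)

/-- at most two polynomials with given invariants -/
theorem two_card (a b m x : ℤ) (S : Finset ℤ[X])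
    (hS : ∀ P ∈ S, P = P4 (qa P) (qb P) (qc P) (qd P) ∧ qa P = a ∧ qb P = b ∧ qm P = m ∧
      qX P = x) : S.card ≤ 2 := by
  classical
  by_contra hcon
  obtain ⟨P, hP, Q, hQ, R, hR, hPQ, hPR, hQR⟩ := two_lt_card.1 (not_le.1 hcon)
  have key : ∀ P ∈ S, ∀ Q ∈ S, P ≠ Q → 4 * (qc P + qc Q) = 4 * a * b - a ^ 3 := by
    intro P hP Q hQ hne
    obtain ⟨p0, p1, p2, p3, p4⟩ := hS P hP
    obtain ⟨q0, q1, q2, q3, q4⟩ := hS Q hQ
    have hc : qc P ≠ qc Q := by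
      intro hc
      apply hne
      have hd : qd P = qd Q := by
        have h1 := p3.trans q3.symm
        unfold qm qv at h1
        rw [p1, p2, q1, q2, hc] at h1
        linarith
      rw [p0, q0, p1, p2, q1, q2, hc, hd]
    have e1 := p3.trans q3.symm
    have e2 := p4.trans q4.symm
    unfold qm qv at e1
    unfold qX qv qw at e2
    rw [p1, p2, q1, q2] at e1 e2
    have h1 : 4 * (qd P - qd Q) = a * (qc P - qc Q) := by linarith
    have h2 : (qc P - qc Q) * (4 * (qc P + qc Q) - (4 * a * b - a ^ 3)) = 0 := by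
      have h3 : 27 * ((qc P - qc Q) * (4 * (qc P + qc Q) - (4 * a * b - a ^ 3))) = 0 := by
        have h4 : (2 * b ^ 3 - 9 * b * (a * qc P - 4 * qd P) +
            27 * (qc P ^ 2 + a ^ 2 * qd P - 4 * b * qd P)) -
            (2 * b ^ 3 - 9 * b * (a * qc Q - 4 * qd Q) +
            27 * (qc Q ^ 2 + a ^ 2 * qd Q - 4 * b * qd Q)) = 0 := by linarith
        linear_combination 4 * h4 - (27 * a ^ 2 - 72 * b) * h1
      linarith
    rcases mul_eq_zero.1 h2 with h | h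
    · exact absurd (by linarith) hc
    · linarith
  have k1 := key P hP Q hQ hPQ
  have k2 := key P hP R hR hPR
  have hcQR : qc Q = qc R := by linarith
  obtain ⟨p0, p1, p2, p3, p4⟩ := hS Q hQ
  obtain ⟨q0, q1, q2, q3, q4⟩ := hS R hR
  apply hQR
  have hd : qd Q = qd R := by
    have h1 := p3.trans q3.symm
    unfold qm qv at h1
    rw [p1, p2, q1, q2, hcQR] at h1
    linarith
  rw [p0, q0, p1, p2, q1, q2, hcQR, hd]

end Pool.Agent.Run7.h445.QF
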