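import Pool.Agent.Run7.h445.QF.Conic
import Pool.Agent.Run7.h445.QC.Main

/-!
# The number of possible Chern polynomials in codimension four
-/

set_option autoImplicit false

open Polynomial Filter Finset

namespace Pool.Agent.Run7.h445.QF

open Pool.Agent.N17.HC Pool.Agent.N17.HC.FIN Pool.Agent.N17.CK Pool.Agent.Run7.h445.QS
  Pool.Agent.Run7.h445.QC

/-- the kernel of the discriminant -/
theorem kernel4 (N y : ℕ) (hy : y + 8 ≤ N + 1) (A' H : ℝ) (hH1 : 1 ≤ H)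
    (hA' : 3000 * H ^ 12 ≤ (y : ℝ) ^ A') (F : Finset ℤ) (hF : ∀ f, Adm 4 y A' f → f ∈ F)
    (P : ℤ[X]) (h : QF.Good N P) (hH : (qa P : ℝ) ≤ H) :
    ∃ f ∈ insert 1 F, ∃ s : ℤ, qD P = f * s ^ 2 ∧
      |(f : ℝ)| ≤ 3000 * H ^ 12 ∧ |(s : ℝ)| ≤ 3000 * H ^ 12 := by
  obtain ⟨hD, -, -, hdH⟩ := bounds N P h H hH
  obtain ⟨-, -, -, -, -, -, hd1, -⟩ := QF.sizes N P h
  have hH12 : 1 ≤ H ^ 12 := one_le_pow₀ hH1
  set D := qD P with hDdef
  by_cases hD0 : D = 0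
  · refine ⟨1, mem_insert_self _ _, 0, by rw [hD0]; ring, ?_, ?_⟩
    · push_cast
      rw [abs_one]
      linarith
    · push_cast
      rw [abs_zero]
      linarith
  obtain ⟨f, s, hf, hs0, hfs⟩ := Pool.Agent.R852.LK.sqf D hD0
  have hf1 : 1 ≤ |f| := Int.one_le_abs hf.ne_zero
  have hs1 : 1 ≤ |s| := Int.one_le_abs hs0.ne'
  have hfD : |f| ≤ |D| := by
    rw [hfs, abs_mul, abs_pow]
    nlinarith [mul_nonneg (abs_nonneg f) (by nlinarith : 0 ≤ |s| ^ 2 - 1)]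
  have hsD : |s| ≤ |D| := by
    rw [hfs, abs_mul, abs_pow]
    nlinarith [mul_le_mul hf1 hs1 (by norm_num) (abs_nonneg f)]
  have hfD' : |(f : ℝ)| ≤ 3000 * H ^ 12 := by
    refine le_trans ?_ hD
    exact_mod_cast hfD
  have hsD' : |(s : ℝ)| ≤ 3000 * H ^ 12 := by
    refine le_trans ?_ hD
    exact_mod_cast hsD
  refine ⟨f, ?_, s, hfs, hfD', hsD'⟩
  rw [mem_insert]
  by_cases hsq : IsSquare f
  · left
    obtain ⟨m, hm⟩ := hsq
    have h6 : IsUnit m := hf m ⟨1, by rw [hm]; ring⟩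
    rcases Int.isUnit_iff.1 h6 with rfl | rfl
    · rw [hm]; norm_num
    · rw [hm]; norm_num
  · right
    apply hF
    refine ⟨hf, hsq, D, qd P, hD0, ?_, hD.trans hA', by omega, hdH.trans hA', ?_⟩
    · exact ⟨f * s, by rw [hfs]; ring⟩
    · intro p hp h3 hpy hpd
      exact loc4 t_KOS t_LSP t_ALG N P h p hp h3 (by omega) hpd

theorem final4 (A ε : ℝ) (hε : 0 < ε) : ∃ N₀ : ℕ, ∀ N : ℕ, N₀ ≤ N → ∀ H : ℝ, 1 ≤ H →
    H ≤ (N : ℝ) ^ A → ∀ S : Finset ℤ[X],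
    (∀ P ∈ S, QF.Good N P ∧ (qa P : ℝ) ≤ H) → (S.card : ℝ) ≤ H ^ 7 * (N : ℝ) ^ ε := by
  classical
  have hE1 := exp_lb
  obtain ⟨ε0, hε0, hε1, hεε⟩ : ∃ δ : ℝ, 0 < δ ∧ δ ≤ 1 ∧ δ ≤ ε :=
    ⟨min ε 1, lt_min hε (by norm_num), min_le_right _ _, min_le_left _ _⟩
  set A1 : ℝ := max A 1 with hA1
  have hA11 : 1 ≤ A1 := le_max_right _ _
  set T : ℝ := 36 * A1 + 1 with hT
  have hT0 : 0 < T := by linarith
  set δ : ℝ := ε0 / (8 * T) with hδ
  have hδ0 : 0 < δ := by positivity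
  have hTδ : T * δ = ε0 / 8 := by rw [hδ]; field_simp
  obtain ⟨C, hC0, hC⟩ := Pool.Agent.H510R2.divisor_bound δ hδ0
  have hpow : ∀ (c a : ℝ), 0 < a → ∀ᶠ N : ℕ in atTop, c ≤ (N : ℝ) ^ a := fun c a ha =>
    tendsto_natCast_atTop_atTop.eventually ((tendsto_rpow_atTop ha).eventually_ge_atTop _)
  have ev1 := (kern 4 (12 * A1 + 1) (ε0 / 4) (by linarith) (by linarith)).and
    ((transfer (12 * A1 + 1) 1 0 3000 (by linarith) (by norm_num)).and (eventually_ge_atTop 4))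
  obtain ⟨y₀, hy₀⟩ := eventually_atTop.1 ev1
  obtain ⟨N₁, hN₁⟩ := eventually_atTop.1 ((hpow (10 ^ 14) 1 one_pos).and
    (hpow (300 * (1 + 419904 * C ^ 3)) (3 * ε0 / 8) (by positivity)))
  refine ⟨max N₁ (y₀ + 20), fun N hN H hH1 hHA S hS => ?_⟩
  obtain ⟨p1, p2⟩ := hN₁ N (by omega)
  obtain ⟨⟨F, q1, q2, q3⟩, q4, q5⟩ := hy₀ (N - 7) (by omega)
  set y := N - 7 with hy
  have hNy : N ≤ 2 * y := by omega
  have hyN : y ≤ N := by omega
  rw [Real.rpow_one] at p1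
  have hN1 : (1 : ℝ) ≤ N := by linarith
  have hN0 : (0 : ℝ) < N := by linarith
  have hy4 : (4 : ℝ) ≤ y := by exact_mod_cast q5
  have hyN' : (y : ℝ) ≤ N := by exact_mod_cast hyN
  have hHA1 : H ≤ (N : ℝ) ^ A1 :=
    hHA.trans (Real.rpow_le_rpow_of_exponent_le hN1 (le_max_left _ _))
  have hH0 : 0 < H := by linarith
  have hpowH : ∀ k : ℕ, H ^ k ≤ (N : ℝ) ^ ((k : ℝ) * A1) := by
    intro k
    calc H ^ k ≤ ((N : ℝ) ^ A1) ^ k := pow_le_pow_left₀ hH0.le hHA1 k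
      _ = (N : ℝ) ^ ((k : ℝ) * A1) := by
          rw [← Real.rpow_natCast, ← Real.rpow_mul hN0.le, mul_comm]
  have hA' : 3000 * H ^ 12 ≤ (y : ℝ) ^ (12 * A1 + 1) := by
    have h1 := q4 N hNy
    rw [sub_zero, add_sub_cancel_right] at h1
    refine le_trans ?_ h1
    have h2 := hpowH 12
    push_cast at h2
    linarith
  -- the kernels
  have hK : ∀ P ∈ S, ∃ v : ℤ × ℤ, v.1 ∈ insert 1 F ∧ qD P = v.1 * v.2 ^ 2 ∧
      |(v.1 : ℝ)| ≤ 3000 * H ^ 12 ∧ |(v.2 : ℝ)| ≤ 3000 * H ^ 12 := by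
    intro P hP
    obtain ⟨f, hf, s, h1, h2, h3⟩ := kernel4 N y (by omega) (12 * A1 + 1) H hH1 hA' F q3 P
      (hS P hP).1 (hS P hP).2
    exact ⟨(f, s), hf, h1, h2, h3⟩
  choose! κ hκ1 hκ2 hκ3 hκ4 using hK
  have hF' : ∀ f ∈ insert 1 F, Squarefree f ∧ f ≠ -3 := by
    intro f hf
    rcases mem_insert.1 hf with rfl | hf
    · exact ⟨squarefree_one, by norm_num⟩
    · refine ⟨(q2 f hf).1, ?_⟩
      rintro rfl
      have h1 := (q2 (-3) hf).2
      have h2 : (y : ℝ) ^ (1 : ℝ) ≤ (y : ℝ) ^ (4 * Real.exp (1 / 2) - ε0 / 4) :=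
        Real.rpow_le_rpow_of_exponent_le (by linarith) (by linarith)
      rw [Real.rpow_one] at h2
      push_cast at h1
      rw [abs_neg] at h1
      have h3 : |(3 : ℝ)| = 3 := by norm_num
      rw [h3] at h1
      linarith
  -- the box
  set M1 : ℤ := ⌊H⌋ with hM1
  set M2 : ℤ := ⌊H ^ 2⌋ with hM2
  set M4 : ℤ := ⌊13 * H ^ 4⌋ with hM4
  set box : Finset (((ℤ × ℤ) × ℤ) × ℤ) :=
    ((Icc 1 M1 ×ˢ Icc 0 M2) ×ˢ Icc (-M4) M4) ×ˢ insert 1 F with hbox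
  set Φ : ℤ[X] → ((ℤ × ℤ) × ℤ) × ℤ := fun P => (((qa P, qb P), qm P), (κ P).1) with hΦ
  have hmap : ∀ P ∈ S, Φ P ∈ box := by
    intro P hP
    obtain ⟨-, h1, h2, h3, -, -, -, -⟩ := QF.sizes N P (hS P hP).1
    obtain ⟨-, -, h4, -⟩ := bounds N P (hS P hP).1 H (hS P hP).2
    rw [hbox, mem_product, mem_product, mem_product, mem_Icc, mem_Icc, mem_Icc]
    refine ⟨⟨⟨⟨by simp only [hΦ]; omega, ?_⟩, ⟨h2, ?_⟩⟩, ?_⟩, hκ1 P hP⟩
    · rw [hM1, Int.le_floor]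
      exact (hS P hP).2
    · rw [hM2, Int.le_floor]
      have h5 : (qb P : ℝ) ≤ (qa P : ℝ) ^ 2 := by exact_mod_cast h3
      have h6 : (0 : ℝ) ≤ qa P := by exact_mod_cast (by omega : (0 : ℤ) ≤ qa P)
      exact h5.trans (pow_le_pow_left₀ h6 (hS P hP).2 2)
    · rw [← abs_le, hM4, Int.le_floor]
      push_cast
      exact h4
  set B : ℕ := ⌈3000 * H ^ 12⌉₊ with hB
  have hH12 : 1 ≤ H ^ 12 := one_le_pow₀ hH1
  have hB1 : 3000 * H ^ 12 ≤ B := Nat.le_ceil _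
  have hB2 : (B : ℝ) ≤ 3001 * H ^ 12 := by
    have := (Nat.ceil_lt_add_one (by positivity : 0 ≤ 3000 * H ^ 12)).le
    linarith
  have hTN : (10 : ℝ) ^ 14 * H ^ 36 ≤ (N : ℝ) ^ T := by
    have h1 := hpowH 36
    push_cast at h1
    have h2 : (N : ℝ) ^ T = (N : ℝ) ^ (36 * A1) * N := by
      rw [hT, Real.rpow_add hN0, Real.rpow_one]
    rw [h2, mul_comm]
    exact mul_le_mul h1 p1 (by positivity) (by positivity)
  have hNδ : ∀ x : ℝ, 0 ≤ x → x ≤ (N : ℝ) ^ T → x ^ δ ≤ (N : ℝ) ^ (ε0 / 8) := by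
    intro x hx0 hx
    calc x ^ δ ≤ ((N : ℝ) ^ T) ^ δ := Real.rpow_le_rpow hx0 hx hδ0.le
      _ = (N : ℝ) ^ (ε0 / 8) := by rw [← Real.rpow_mul hN0.le, hTδ]
  set Z : ℝ := (N : ℝ) ^ (ε0 / 8) with hZ
  have hZ1 : 1 ≤ Z := Real.one_le_rpow hN1 (by positivity)
  have hfib : ∀ v ∈ box, ((S.filter fun P => Φ P = v).card : ℝ) ≤
      2 * (1 + 419904 * C ^ 3 * Z ^ 3) := by
    intro v hv
    rcases (S.filter fun P => Φ P = v).eq_empty_or_nonempty with h | ⟨P₀, hP₀⟩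
    · rw [h]
      simp only [card_empty, Nat.cast_zero]
      positivity
    obtain ⟨⟨⟨a, b⟩, m⟩, f⟩ := v
    have hfF : f ∈ insert 1 F := (mem_product.1 hv).2
    obtain ⟨hfsq, hf3⟩ := hF' f hfF
    have hab : ∀ P ∈ S.filter (fun P => Φ P = (((a, b), m), f)),
        P ∈ S ∧ qa P = a ∧ qb P = b ∧ qm P = m ∧ (κ P).1 = f := by
      intro P hP
      obtain ⟨h1, h2⟩ := mem_filter.1 hP
      simp only [hΦ, Prod.mk.injEq] at h2
      exact ⟨h1, h2.1.1.1, h2.1.1.2, h2.1.2, h2.2⟩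
    obtain ⟨h01, h02, h03, h04, h05⟩ := hab P₀ hP₀
    have hmH : |(m : ℝ)| ≤ 13 * H ^ 4 := by
      obtain ⟨-, -, h6, -⟩ := bounds N P₀ (hS P₀ h01).1 H (hS P₀ h01).2
      rwa [h04] at h6
    have hfH : |(f : ℝ)| ≤ 3000 * H ^ 12 := by
      rw [← h05]
      exact hκ3 P₀ h01
    -- at most two polynomials for each point of the conic
    have htwo : (S.filter fun P => Φ P = (((a, b), m), f)).card ≤
        2 * ((S.filter fun P => Φ P = (((a, b), m), f)).image qX).card := by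
      refine card_le_mul_card_image _ 2 fun x _ => ?_
      refine two_card a b m x _ fun P hP => ?_
      obtain ⟨h1, h2⟩ := mem_filter.1 hP
      obtain ⟨h3, h4, h5, h6, -⟩ := hab P h1
      exact ⟨(QF.sizes N P (hS P h3).1).1, h4, h5, h6, h2⟩
    have hcub := conic_card m f hfsq hf3 B
      ((S.filter fun P => Φ P = (((a, b), m), f)).image qX) (by
        intro x hx
        obtain ⟨P, hP, rfl⟩ := mem_image.1 hx
        obtain ⟨h1, h2, h3, h4, h5⟩ := hab P hP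
        refine ⟨(κ P).2, ?_, ?_, ?_⟩
        · have h6 := identity P
          rw [hκ2 P h1, h4, h5] at h6
          linarith
        · obtain ⟨-, h6, -, -⟩ := bounds N P (hS P h1).1 H (hS P h1).2
          have h7 := h6.trans hB1
          exact_mod_cast h7
        · have h6 : |((κ P).2 : ℝ)| ≤ B := (hκ4 P h1).trans hB1
          exact_mod_cast h6)
    set n := (4 * m ^ 3 : ℤ) with hn
    set W : ℕ := 18 * (1 + (-27 * f).natAbs) * B ^ 2 with hW
    have hB0 : B ≠ 0 := by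
      intro h
      rw [h] at hB1
      norm_num at hB1
      linarith
    have hW0 : W ≠ 0 := by
      rw [hW]
      positivity
    have hWT : (W : ℝ) ≤ (N : ℝ) ^ T := by
      refine le_trans ?_ hTN
      have h1 : (((-27 * f).natAbs : ℕ) : ℝ) = 27 * |(f : ℝ)| := by
        rw [Nat.cast_natAbs]
        push_cast
        rw [abs_mul]
        norm_num
      rw [hW]
      push_cast
      rw [h1]
      calc 18 * (1 + 27 * |(f : ℝ)|) * (B : ℝ) ^ 2
          ≤ 18 * (H ^ 12 + 27 * (3000 * H ^ 12)) * (3001 * H ^ 12) ^ 2 := by gcongr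
        _ = (18 * (1 + 27 * 3000) * 3001 ^ 2) * H ^ 36 := by ring
        _ ≤ 10 ^ 14 * H ^ 36 := by
            apply mul_le_mul_of_nonneg_right _ (by positivity)
            norm_num
    have hnT : ((n.natAbs : ℕ) : ℝ) ≤ (N : ℝ) ^ T := by
      refine le_trans ?_ hTN
      rw [Nat.cast_natAbs, hn]
      push_cast
      rw [abs_mul, abs_pow]
      have h2 : H ^ 12 ≤ H ^ 36 := pow_le_pow_right₀ hH1 (by norm_num)
      calc |(4 : ℝ)| * |(m : ℝ)| ^ 3 ≤ 4 * (13 * H ^ 4) ^ 3 := by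
            rw [show |(4 : ℝ)| = 4 by norm_num]
            gcongr
        _ = 8788 * H ^ 12 := by ring
        _ ≤ 10 ^ 14 * H ^ 36 := by nlinarith
    have hτ : (n.natAbs.divisors.card : ℝ) ≤ C * Z := by
      by_cases hn0 : n.natAbs = 0
      · rw [hn0]
        simp only [Nat.divisors_zero, card_empty, Nat.cast_zero]
        positivity
      · refine (hC _ (Nat.one_le_iff_ne_zero.2 hn0)).trans ?_
        exact mul_le_mul_of_nonneg_left (hNδ _ (by positivity) hnT) hC0.le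
    have hlog : ((Nat.log 2 W + 1 : ℕ) : ℝ) ≤ C * Z :=
      (log_bound C δ hC hδ0 hC0 W hW0).trans
        (mul_le_mul_of_nonneg_left (hNδ _ (by positivity) hWT) hC0.le)
    have hcub' : (((S.filter fun P => Φ P = (((a, b), m), f)).image qX).card : ℝ) ≤
        1 + (n.natAbs.divisors.card : ℝ) * ((n.natAbs.divisors.card : ℝ) *
          (419904 * ((Nat.log 2 W + 1 : ℕ) : ℝ))) := by exact_mod_cast hcub
    have htwo' : ((S.filter fun P => Φ P = (((a, b), m), f)).card : ℝ) ≤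
        2 * (((S.filter fun P => Φ P = (((a, b), m), f)).image qX).card : ℝ) := by
      exact_mod_cast htwo
    refine htwo'.trans ?_
    have hCZ : 0 ≤ C * Z := by positivity
    refine mul_le_mul_of_nonneg_left (hcub'.trans ?_) (by norm_num)
    calc 1 + (n.natAbs.divisors.card : ℝ) * ((n.natAbs.divisors.card : ℝ) *
          (419904 * ((Nat.log 2 W + 1 : ℕ) : ℝ)))
        ≤ 1 + (C * Z) * ((C * Z) * (419904 * (C * Z))) := by gcongr
      _ = _ := by ring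
  have hcard : (S.card : ℝ) ≤ (box.card : ℝ) * (2 * (1 + 419904 * C ^ 3 * Z ^ 3)) := by
    rw [card_eq_sum_card_fiberwise hmap]
    push_cast
    calc ∑ v ∈ box, ((S.filter fun P => Φ P = v).card : ℝ)
        ≤ ∑ _v ∈ box, (2 * (1 + 419904 * C ^ 3 * Z ^ 3)) := sum_le_sum hfib
      _ = _ := by rw [sum_const, nsmul_eq_mul]
  have hM1' : ((Icc 1 M1).card : ℝ) ≤ H := by
    rw [Int.card_Icc, add_sub_cancel_right]
    have h1 : 0 ≤ M1 := Int.floor_nonneg.2 hH0.le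
    have h2 : ((M1.toNat : ℕ) : ℝ) = (M1 : ℝ) := by exact_mod_cast Int.toNat_of_nonneg h1
    rw [h2]
    exact Int.floor_le H
  have hM2' : ((Icc 0 M2).card : ℝ) ≤ 2 * H ^ 2 := by
    rw [Int.card_Icc]
    have h1 : 0 ≤ M2 := Int.floor_nonneg.2 (by positivity)
    have h2 : (((M2 + 1 - 0).toNat : ℕ) : ℝ) = (M2 : ℝ) + 1 := by
      have : (((M2 + 1 - 0).toNat : ℕ) : ℤ) = M2 + 1 := by
        rw [Int.toNat_of_nonneg (by linarith)]
        ring
      exact_mod_cast this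
    rw [h2]
    have h3 : (M2 : ℝ) ≤ H ^ 2 := Int.floor_le _
    have h4 : 1 ≤ H ^ 2 := one_le_pow₀ hH1
    linarith
  have hM4' : ((Icc (-M4) M4).card : ℝ) ≤ 27 * H ^ 4 := by
    rw [Int.card_Icc]
    have h1 : 0 ≤ M4 := Int.floor_nonneg.2 (by positivity)
    have h2 : (((M4 + 1 - -M4).toNat : ℕ) : ℝ) = 2 * (M4 : ℝ) + 1 := by
      have : (((M4 + 1 - -M4).toNat : ℕ) : ℤ) = 2 * M4 + 1 := by
        rw [Int.toNat_of_nonneg (by linarith)]
        ring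
      exact_mod_cast this
    rw [h2]
    have h3 : (M4 : ℝ) ≤ 13 * H ^ 4 := Int.floor_le _
    have h4 : 1 ≤ H ^ 4 := one_le_pow₀ hH1
    linarith
  have hF1 : ((insert 1 F).card : ℝ) ≤ 2 * Z ^ 2 := by
    have h1 : ((insert 1 F).card : ℝ) ≤ F.card + 1 := by exact_mod_cast card_insert_le _ _
    have h2 : (F.card : ℝ) ≤ Z ^ 2 := by
      refine q1.trans ?_
      calc (y : ℝ) ^ (ε0 / 4) ≤ (N : ℝ) ^ (ε0 / 4) :=
            Real.rpow_le_rpow (by positivity) hyN' (by positivity)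
        _ = Z ^ 2 := by
            rw [hZ, ← Real.rpow_natCast, ← Real.rpow_mul hN0.le]
            congr 1
            push_cast
            ring
    have h3 : 1 ≤ Z ^ 2 := one_le_pow₀ hZ1
    linarith
  have hboxc : (box.card : ℝ) ≤ 108 * H ^ 7 * Z ^ 2 := by
    rw [hbox, card_product, card_product, card_product]
    push_cast
    calc ((Icc 1 M1).card : ℝ) * ((Icc 0 M2).card : ℝ) * ((Icc (-M4) M4).card : ℝ) *
          ((insert 1 F).card : ℝ)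
        ≤ H * (2 * H ^ 2) * (27 * H ^ 4) * (2 * Z ^ 2) := by gcongr
      _ = _ := by ring
  have hZ3 : 1 ≤ Z ^ 3 := one_le_pow₀ hZ1
  have hend : (N : ℝ) ^ ε0 = Z ^ 5 * (N : ℝ) ^ (3 * ε0 / 8) := by
    rw [hZ, ← Real.rpow_natCast, ← Real.rpow_mul hN0.le, ← Real.rpow_add hN0]
    congr 1
    push_cast
    ring
  have hHp : 0 < H ^ 7 := by positivity
  calc (S.card : ℝ) ≤ (box.card : ℝ) * (2 * (1 + 419904 * C ^ 3 * Z ^ 3)) := hcard
    _ ≤ (108 * H ^ 7 * Z ^ 2) * (2 * (Z ^ 3 + 419904 * C ^ 3 * Z ^ 3)) := by gcongr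
    _ = H ^ 7 * (Z ^ 5 * (216 * (1 + 419904 * C ^ 3))) := by ring
    _ ≤ H ^ 7 * (Z ^ 5 * (N : ℝ) ^ (3 * ε0 / 8)) := by
        have h1 : 216 * (1 + 419904 * C ^ 3) ≤ (N : ℝ) ^ (3 * ε0 / 8) := by
          refine le_trans ?_ p2
          have : 0 < 1 + 419904 * C ^ 3 := by positivity
          linarith
        gcongr
    _ = H ^ 7 * (N : ℝ) ^ ε0 := by rw [hend]
    _ ≤ H ^ 7 * (N : ℝ) ^ ε :=
        mul_le_mul_of_nonneg_left (Real.rpow_le_rpow_of_exponent_le hN1 hεε) hHp.le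

end Pool.Agent.Run7.h445.QF
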